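import Mathlib
import Pool.Agent.K4H38.FP.Fin

/-!
# The Hilbert function of general fat points outside a bounded window, without any restriction

Let `n ≥ 1`, `m ≥ 1` and `d` be arbitrary, and put

* `D = binom (n + d) n`, the number of the coefficients of a form of degree `d`,
* `N = binom (n + m - 1) n`, the number of the conditions of a point of multiplicity `m`,
* `a = binom (n + m - 2) (n - 1)`, the number of the monomials of degree `m - 1` in `n` variables.

There is an `r₀` such that `H_{n,r,m}(d) = r * N` for all `r ≤ r₀` and `H_{n,r,m}(d) = D` for all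
`r ≥ r₀ + a`: for given `n`, `m`, `d` at most `a - 1` consecutive numbers `r` of points remain. We
have `H_{n,r,m}(d) = min D (r * N)` as soon as

* `D - r * N > (a - 1) * N - a * (a + 1) / 2`, or
* `r * N - D ≥ (a - 1) * (N - m + 1) - a * (a - 1) / 2`,

and for `r₀ < r < r₀ + a` there are at most `(a - 1) * (N - a) + (a - 1) * (a - 2) / 2` linearly
independent forms.

For a general point `v` let `G r` be the space of the leading forms of degree `m - 1` at `v` of the
forms of degree `d` which vanish to order `m` at `r` general points and to order `m - 1` at `v`. The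
dimension of `G r` does not increase with `r`. If it is the same for `r` and `r + 1`, then `G r` does
not change if one of the `r` points is moved, hence it does not change if all of them are moved.
Then it is invariant under the projective transformations which fix `v`, so that it is zero or the
space of all forms of degree `m - 1` in `n` variables. So `dim (G r)` drops strictly as soon as it is
different from `a`, until it is zero. On the other hand, the derivatives of leading forms at the
general point `v` are leading forms: if `dim (G r) = a`, then the next point imposes `N` conditions,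
and if `G r = 0`, then no form is left after the next point.
-/

set_option autoImplicit false

namespace Pool.Agent.Results.MP_b56c98_ag.BoundedWindow

open MvPolynomial
open scoped LinearAlgebra.Projectivization
open Pool.Agent.H350R3.MG

/-- The `m`-th symbolic power of the ideal of the points `P₁, …, P_r`. -/
noncomputable def symbolicPower {n r : ℕ} (m : ℕ) (P : Fin r → ℙ ℂ (Fin (n + 1) → ℂ)) :
    Ideal (MvPolynomial (Fin (n + 1)) ℂ) :=
  ⨅ i, primeIdeal (P i) ^ m

/-- The Hilbert function `dim R_d - dim J_d` of `R / J`. -/
noncomputable def hilbert {n : ℕ} (J : Ideal (MvPolynomial (Fin (n + 1)) ℂ)) (d : ℕ) : ℤ :=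
  (Module.finrank ℂ (homogeneousSubmodule (Fin (n + 1)) ℂ d) : ℤ) -
    Module.finrank ℂ (homogeneousSubmodule (Fin (n + 1)) ℂ d ⊓ Submodule.restrictScalars ℂ J :
      Submodule ℂ (MvPolynomial (Fin (n + 1)) ℂ))

/-- `h` is the value `H_{n,r,m}(d)` of the Hilbert function of `R / I^(m)` for `r` general points:
the value is `h` for all the `r`-tuples of points in a nonempty Zariski open set. -/
def IsGeneralHilbertValue (n r m d : ℕ) (h : ℤ) : Prop :=
  Generally (fun P : Fin r → ℙ ℂ (Fin (n + 1) → ℂ) => hilbert (symbolicPower m P) d = h)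

/-- The number of the coefficients of a form of degree `d` in `n + 1` variables. -/
def forms (n d : ℕ) : ℤ := ((n + d).choose n : ℕ)

/-- The number of the conditions of a point of multiplicity `m` in `ℙⁿ`. -/
def conditions (n m : ℕ) : ℤ := ((n + m - 1).choose n : ℕ)

/-- The number of the monomials of degree `m - 1` in `n` variables. -/
def leading (n m : ℕ) : ℤ := ((n + m - 2).choose (n - 1) : ℕ)

lemma general (n r m d : ℕ) : IsGeneralHilbertValue n r m d
    (forms n d - K4H38FP.hv ℂ (Fin (n + 1)) d (Multiset.replicate r m)) := by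
  obtain ⟨U, h1, h2, h3⟩ := K4H38FP.generally_dim (n := n) (r := r) (fun _ => m) d
  refine ⟨U, h1, h2, fun P hP => ?_⟩
  have h4 := h3 P hP
  have h5 : (Finset.univ : Finset (Fin r)).val.map (fun _ => m) = Multiset.replicate r m := by
    rw [Multiset.map_const']
    congr 1
    exact Finset.card_fin r
  rw [h5] at h4
  unfold hilbert symbolicPower forms
  beta_reduce
  rw [h4, H350MG.finrank_Rj, Fintype.card_fin, show n + 1 + d - 1 = n + d by omega,
    ← Nat.choose_symm_add]

lemma general_of {n r m d : ℕ} {h : ℤ}
    (hh : forms n d - K4H38FP.hv ℂ (Fin (n + 1)) d (Multiset.replicate r m) = h) :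
    IsGeneralHilbertValue n r m d h := hh ▸ general n r m d

/-- **Main result.** Let `n, m ≥ 1`, `N = binom (n + m - 1) n` and
`a = binom (n + m - 2) (n - 1)`, and let `D = binom (n + d) n`. For every `d` there is an `r₀` such
that `H_{n,r,m}(d) = r * N` for `r ≤ r₀`, `H_{n,r,m}(d) = D` for `r ≥ r₀ + a`, and
`D - H_{n,r,m}(d) ≤ (a - 1) * (N - a) + (a - 1) * (a - 2) / 2` for all `r > r₀`. Moreover
`H_{n,r,m}(d) = r * N` if `D - r * N > (a - 1) * N - a * (a + 1) / 2`, and `H_{n,r,m}(d) = D` if
`r * N - D ≥ (a - 1) * (N - m + 1) - a * (a - 1) / 2`. -/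
theorem result (n m d : ℕ) (hn : 1 ≤ n) (hm : 1 ≤ m) :
    (∃ r₀ : ℕ,
      (∀ r : ℕ, r ≤ r₀ → IsGeneralHilbertValue n r m d (r * conditions n m)) ∧
      (∀ r : ℕ, r₀ + leading n m ≤ r → IsGeneralHilbertValue n r m d (forms n d)) ∧
      (∀ r : ℕ, r₀ < r → ∃ h : ℤ, IsGeneralHilbertValue n r m d h ∧
        2 * (forms n d - h) ≤ 2 * (leading n m - 1) * (conditions n m - leading n m) +
          (leading n m - 1) * (leading n m - 2))) ∧
    (∀ r : ℕ, 2 * (leading n m - 1) * conditions n m - leading n m * (leading n m + 1) <
        2 * (forms n d - r * conditions n m) →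
      IsGeneralHilbertValue n r m d (r * conditions n m)) ∧
    (∀ r : ℕ, 2 * (leading n m - 1) * (conditions n m - m + 1) -
        leading n m * (leading n m - 1) ≤ 2 * (r * conditions n m - forms n d) →
      IsGeneralHilbertValue n r m d (forms n d)) := by
  obtain ⟨k, rfl⟩ : ∃ k, m = k + 1 := ⟨m - 1, by omega⟩
  have S := K4H38FP.sys hn d
  have eN : conditions n (k + 1) = K4H38FP.nc n (k + 1) := rfl
  have ea : leading n (k + 1) = K4H38FP.ak (Fin (n + 1)) k := by
    rw [K4H38FP.ak_fin hn]
    unfold leading
    rw [show n + (k + 1) - 2 = n + k - 1 by omega]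
  have eD : forms n d = ((n + d).choose n : ℕ) := rfl
  have ha : (1 : ℤ) ≤ leading n (k + 1) := by
    rw [ea]
    exact_mod_cast K4H38FP.ak_pos hn k
  have hNk : k ≤ K4H38FP.nc n k := S.le_N k
  have hNs : K4H38FP.nc n (k + 1) = K4H38FP.nc n k + K4H38FP.ak (Fin (n + 1)) k :=
    K4H38FP.nc_succ hn k
  have hNsZ : conditions n (k + 1) = K4H38FP.nc n k + leading n (k + 1) := by
    rw [eN, ea, hNs]
    push_cast
    ring
  have hNkZ : (k : ℤ) ≤ K4H38FP.nc n k := by exact_mod_cast hNk
  have hDpos : 1 ≤ (n + d).choose n := Nat.choose_pos (by omega)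
  rcases Nat.lt_or_ge d k with hdk | hk
  · -- the multiplicity is larger than `d + 1`
    have hD : (n + d).choose n < K4H38FP.nc n (k + 1) := by
      unfold K4H38FP.nc
      rw [show n + (k + 1) - 1 = n + k by omega]
      have h1 : (n + d).choose n < (n + (d + 1)).choose n := by
        obtain ⟨q, rfl⟩ : ∃ q, n = q + 1 := ⟨n - 1, by omega⟩
        rw [show q + 1 + (d + 1) = (q + 1 + d) + 1 by omega, Nat.choose_succ_succ']
        have : 0 < (q + 1 + d).choose q := Nat.choose_pos (by omega)
        omega
      exact h1.trans_le (Nat.choose_le_choose n (by omega))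
    have hDZ : forms n d + 1 ≤ conditions n (k + 1) := by
      rw [eD, eN]
      exact_mod_cast hD
    have hD0 : (1 : ℤ) ≤ forms n d := by
      rw [eD]
      exact_mod_cast hDpos
    have hr0 : IsGeneralHilbertValue n 0 (k + 1) d 0 := by
      refine general_of ?_
      rw [Multiset.replicate_zero, S.h7, eD]
      simp
    have hr1 : ∀ r : ℕ, 1 ≤ r → IsGeneralHilbertValue n r (k + 1) d (forms n d) := by
      intro r hr
      refine general_of ?_
      obtain ⟨q, rfl⟩ : ∃ q, r = q + 1 := ⟨r - 1, by omega⟩
      rw [Multiset.replicate_succ, K4H38FP.hv_top (by omega)]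
      simp
    refine ⟨⟨0, ?_, ?_, ?_⟩, ?_, ?_⟩
    · intro r hr
      obtain rfl : r = 0 := by omega
      simpa using hr0
    · intro r hr
      refine hr1 r ?_
      have : (1 : ℤ) ≤ r := by push_cast at hr; linarith
      exact_mod_cast this
    · intro r hr
      refine ⟨_, hr1 r hr, ?_⟩
      rw [sub_self, mul_zero, hNsZ]
      have h1 : (0 : ℤ) ≤ (leading n (k + 1) - 1) * (leading n (k + 1) - 2) := by
        rcases ha.eq_or_lt with h | h
        · rw [← h]; simp
        · exact mul_nonneg (by linarith) (by linarith)
      have h2 : (0 : ℤ) ≤ (leading n (k + 1) - 1) * K4H38FP.nc n k :=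
        mul_nonneg (by linarith) (by linarith [(Nat.cast_nonneg k : (0 : ℤ) ≤ k)])
      nlinarith
    · intro r hr
      rcases Nat.eq_zero_or_pos r with h0 | h0
      · subst h0
        simpa using hr0
      · exfalso
        have h1 : (1 : ℤ) ≤ r := by exact_mod_cast h0
        have h2 : conditions n (k + 1) ≤ r * conditions n (k + 1) := by nlinarith
        have h3 : (-2 : ℤ) ≤ 2 * (leading n (k + 1) - 1) * conditions n (k + 1) -
            leading n (k + 1) * (leading n (k + 1) + 1) := by
          rw [hNsZ]
          have h4 : (0 : ℤ) ≤ (leading n (k + 1) - 1) * K4H38FP.nc n k :=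
            mul_nonneg (by linarith) (by linarith [(Nat.cast_nonneg k : (0 : ℤ) ≤ k)])
          have h5 : (0 : ℤ) ≤ (leading n (k + 1) - 1) * (leading n (k + 1) - 2) := by
            rcases ha.eq_or_lt with h | h
            · rw [← h]; simp
            · exact mul_nonneg (by linarith) (by linarith)
          nlinarith
        linarith
    · intro r hr
      rcases Nat.eq_zero_or_pos r with h0 | h0
      · exfalso
        subst h0
        have h4 : (0 : ℤ) ≤ (leading n (k + 1) - 1) * (K4H38FP.nc n k - k) :=
          mul_nonneg (by linarith) (by linarith)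
        have h5 : (0 : ℤ) ≤ (leading n (k + 1) - 1) * leading n (k + 1) :=
          mul_nonneg (by linarith) (by linarith)
        rw [hNsZ] at hr
        push_cast at hr
        nlinarith
      · exact hr1 r h0
  -- the main case
  have key : ∀ r : ℕ, K4H38FP.hv ℂ (Fin (n + 1)) d (Multiset.replicate r (k + 1)) +
      r * K4H38FP.nc n (k + 1) = (n + d).choose n →
        IsGeneralHilbertValue n r (k + 1) d (r * conditions n (k + 1)) := by
    intro r hr
    refine general_of ?_
    rw [eD, ← hr, eN]
    push_cast
    ring
  have key0 : ∀ r : ℕ, K4H38FP.hv ℂ (Fin (n + 1)) d (Multiset.replicate r (k + 1)) = 0 →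
      IsGeneralHilbertValue n r (k + 1) d (forms n d) := by
    intro r hr
    refine general_of ?_
    rw [hr]
    simp
  refine ⟨?_, ?_, ?_⟩
  · obtain ⟨r₀, h1, h2, h3⟩ := S.homog hk
    refine ⟨r₀, fun r hr => key r (h1 r hr), fun r hr => key0 r (h2 r ?_), fun r hr => ?_⟩
    · rw [ea] at hr
      exact_mod_cast hr
    · refine ⟨_, general n r (k + 1) d, ?_⟩
      rw [sub_sub_cancel, hNsZ, ea]
      have := h3 r hr
      linarith
  · intro r hr
    refine key r ?_
    have h1 := S.lower (M := k + 1) (by omega) (by omega) (Multiset.replicate r (k + 1))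
      (K4H38FP.Sys.rep_le k r)
    rw [K4H38FP.Sys.rep_sum, Nat.add_sub_cancel] at h1
    apply h1
    rw [ea, eN, eD] at hr
    push_cast at hr ⊢
    exact hr
  · intro r hr
    refine key0 r ?_
    by_contra hcon
    have h1 := S.homog_upper (k := k) (r := r) hk (by omega)
    rw [ea, eN, eD] at hr
    push_cast at hr h1
    have e1 : (K4H38FP.nc n (k + 1) : ℤ) - (k + 1) + 1 = K4H38FP.nc n (k + 1) - k := by ring
    rw [e1] at hr
    linarith

end Pool.Agent.Results.MP_b56c98_ag.BoundedWindow
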