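import Mathlib
import Pool.Agent.K4H38.FP.Fin

/-!
# An explicit window for the virtual dimension of the special systems

Let `P 1, …, P s` be general points of the complex projective plane with arbitrary multiplicities
`m i`, let `M ≥ 1` be the largest multiplicity and `d` any degree, and let
`v = binom (d + 2) 2 - ∑ binom (m i + 1) 2` be the virtual dimension plus one. If the system is
special, then

* `- M (M - 1) ^ 2 < 2 v ≤ M (M + 1) (M - 2)`, and
* its dimension plus one is at most `(M - 1) (M ^ 2 - 2) / 2`.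

More precisely, if `2 v > M (M + 1) (M - 2)`, then the points impose independent conditions, and if
`2 v ≤ - M (M - 1) ^ 2`, then the system is empty. No condition on `d`, `s` or the multiplicities is
needed.

For a general point `q` of the plane let `G k` be the space of the leading forms of degree `k` at
`q` of the curves of the system with multiplicity `k` at `q`, a space of binary forms. If it has the
same dimension after one more point is added, for every multiplicity of that point which occurs among
the `m i`, then `G k` does not change if the points are moved one after the other, so that it is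
invariant under the projective transformations fixing `q`, and it is zero or the space of all binary
forms of degree `k`. So the dimension of `G (M - 1)` drops strictly as soon as it is different from
`M`. The derivatives of leading forms at the general point `q` are leading forms.
-/

set_option autoImplicit false

namespace Pool.Agent.K4H38.Old.ExplicitWindow

open MvPolynomial
open scoped LinearAlgebra.Projectivization
open Pool.Agent.H350R3.MG

/-- The space of the forms of degree `d` with multiplicity at least `m i` at the point `P i`. -/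
noncomputable def system {s : ℕ} (P : Fin s → ℙ ℂ (Fin 3 → ℂ)) (d : ℕ) (m : Fin s → ℕ) :
    Submodule ℂ (MvPolynomial (Fin 3) ℂ) :=
  homogeneousSubmodule (Fin 3) ℂ d ⊓ Submodule.restrictScalars ℂ (⨅ i, primeIdeal (P i) ^ m i)

/-- The virtual dimension plus one. -/
def vdimAddOne {s : ℕ} (d : ℕ) (m : Fin s → ℕ) : ℤ :=
  ((d + 2).choose 2 : ℤ) - ∑ i, ((m i + 1).choose 2 : ℤ)

/-- The system of the curves of degree `d` with multiplicities `m i` at general points is special:
it is not true for general points that its dimension is the expected one. -/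
def IsSpecial {s : ℕ} (d : ℕ) (m : Fin s → ℕ) : Prop :=
  ¬ Generally fun P : Fin s → ℙ ℂ (Fin 3 → ℂ) =>
    (Module.finrank ℂ (system P d m) : ℤ) = max (vdimAddOne d m) 0

/-- **Main result.** Let `M ≥ 1` be the largest of the multiplicities `m i` at general points of the
plane and `v` the virtual dimension of the system of the curves of degree `d` plus one. The dimension
plus one is `v` if `2 v > M (M + 1) (M - 2)`, it is `0` if `2 v ≤ - M (M - 1) ^ 2`, and it is always
equal to `v` or at most `(M - 1) (M ^ 2 - 2) / 2`. In particular a special system has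
`- M (M - 1) ^ 2 < 2 v ≤ M (M + 1) (M - 2)` and dimension less than `(M - 1) (M ^ 2 - 2) / 2`. -/
theorem result (s d M : ℕ) (m : Fin s → ℕ) (hm : ∀ i, m i ≤ M) (hM : ∃ i, m i = M) (h1 : 1 ≤ M) :
    ((M : ℤ) * (M + 1) * (M - 2) < 2 * vdimAddOne d m →
      Generally fun P : Fin s → ℙ ℂ (Fin 3 → ℂ) =>
        (Module.finrank ℂ (system P d m) : ℤ) = vdimAddOne d m) ∧
    (2 * vdimAddOne d m ≤ -((M : ℤ) * (M - 1) ^ 2) →
      Generally fun P : Fin s → ℙ ℂ (Fin 3 → ℂ) => system P d m = ⊥) ∧
    (Generally fun P : Fin s → ℙ ℂ (Fin 3 → ℂ) =>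
      (Module.finrank ℂ (system P d m) : ℤ) = vdimAddOne d m ∨
        2 * (Module.finrank ℂ (system P d m) : ℤ) ≤ ((M : ℤ) - 1) * (M ^ 2 - 2)) ∧
    (IsSpecial d m → -((M : ℤ) * (M - 1) ^ 2) < 2 * vdimAddOne d m ∧
      2 * vdimAddOne d m ≤ (M : ℤ) * (M + 1) * (M - 2)) := by
  obtain ⟨k, rfl⟩ : ∃ k, M = k + 1 := ⟨M - 1, by omega⟩
  have S := K4H38FP.sys (n := 2) (by omega) d
  -- the multiset of the multiplicities
  obtain ⟨i0, hi0⟩ := hM
  have hmem : k + 1 ∈ (Finset.univ : Finset (Fin s)).val.map m :=
    Multiset.mem_map.2 ⟨i0, Finset.mem_univ i0, hi0⟩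
  obtain ⟨t, ht⟩ := Multiset.exists_cons_of_mem hmem
  have hall : ∀ x ∈ (k + 1) ::ₘ t, x ≤ k + 1 := by
    intro x hx
    rw [← ht] at hx
    obtain ⟨i, _, rfl⟩ := Multiset.mem_map.1 hx
    exact hm i
  have htt : ∀ x ∈ t, x ≤ k + 1 := fun x hx => hall x (Multiset.mem_cons_of_mem hx)
  -- the numbers
  have hnc : ∀ q : ℕ, K4H38FP.nc 2 q = (q + 1).choose 2 := by
    intro q
    unfold K4H38FP.nc
    congr 1
    omega
  have hsum : ((((k + 1) ::ₘ t).map (K4H38FP.nc 2)).sum : ℤ) = ∑ i, ((m i + 1).choose 2 : ℤ) := by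
    rw [← ht, Multiset.map_map]
    have e1 : (Multiset.map (K4H38FP.nc 2 ∘ m) (Finset.univ : Finset (Fin s)).val).sum =
        ∑ i, (m i + 1).choose 2 := by
      rw [Finset.sum]
      congr 1
      refine Multiset.map_congr rfl fun i _ => ?_
      exact hnc (m i)
    rw [e1]
    push_cast
    rfl
  have hv : vdimAddOne d m = ((2 + d).choose 2 : ℤ) -
      ((((k + 1) ::ₘ t).map (K4H38FP.nc 2)).sum : ℤ) := by
    rw [hsum]
    unfold vdimAddOne
    rw [Nat.add_comm 2 d]
  have ha : K4H38FP.ak (Fin (2 + 1)) k = k + 1 := by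
    rw [K4H38FP.ak_fin (by omega)]
    have : 2 + k - 1 = k + 1 := by omega
    rw [this]
    simp
  have hNk : 2 * (K4H38FP.nc 2 k : ℤ) = k * (k + 1) := by
    rw [hnc]
    have h2 := Nat.triangle_succ k
    have h3 : (k + 1).choose 2 * 2 = (k + 1) * k := by
      rw [Nat.choose_two_right, Nat.add_sub_cancel]
      exact Nat.div_mul_cancel (by
        have := Nat.even_mul_succ_self k
        rw [Nat.mul_comm] at this
        exact this.two_dvd)
    have h4 : (((k + 1).choose 2 : ℕ) : ℤ) * 2 = (k + 1) * k := by exact_mod_cast h3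
    linarith
  have hNk1 : 2 * (K4H38FP.nc 2 (k + 1) : ℤ) = (k + 1) * (k + 2) := by
    rw [K4H38FP.nc_succ (by omega), ha]
    push_cast
    linarith
  -- the generic dimension
  have hgen := K4H38FP.generally_dim (n := 2) m d
  rw [ht] at hgen
  obtain ⟨h, hh⟩ : ∃ h, h = K4H38FP.hv ℂ (Fin (2 + 1)) d ((k + 1) ::ₘ t) := ⟨_, rfl⟩
  rw [← hh] at hgen
  have hG : ∀ {Q : ℕ → Prop}, Q h → Generally fun P : Fin s → ℙ ℂ (Fin 3 → ℂ) =>
      Q (Module.finrank ℂ (system P d m)) := by
    intro Q hQ
    obtain ⟨U, g1, g2, g3⟩ := hgen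
    refine ⟨U, g1, g2, fun P hP => ?_⟩
    have g4 : Module.finrank ℂ (system P d m) = h := g3 P hP
    beta_reduce
    rw [g4]
    exact hQ
  -- the three statements on the generic dimension
  have main : ((((k + 1 : ℕ) : ℤ) * ((k + 1 : ℕ) + 1) * ((k + 1 : ℕ) - 2) < 2 * vdimAddOne d m →
        (h : ℤ) = vdimAddOne d m) ∧
      (2 * vdimAddOne d m ≤ -(((k + 1 : ℕ) : ℤ) * ((k + 1 : ℕ) - 1) ^ 2) → h = 0) ∧
      ((h : ℤ) = vdimAddOne d m ∨
        2 * (h : ℤ) ≤ (((k + 1 : ℕ) : ℤ) - 1) * ((k + 1 : ℕ) ^ 2 - 2))) := by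
    push_cast
    rcases Nat.lt_or_ge d k with hdk | hk
    · have h0 : h = 0 := by rw [hh]; exact K4H38FP.hv_top (by omega) t
      have hneg : vdimAddOne d m < 0 := by
        rw [hv, Multiset.map_cons, Multiset.sum_cons, hnc]
        have h2 : (2 + d).choose 2 < (k + 1 + 1).choose 2 := by
          have h3 : (d + 2 + 1).choose 2 = (d + 2).choose 1 + (d + 2).choose 2 :=
            Nat.choose_succ_succ' _ _
          have h4 : (d + 2 + 1).choose 2 ≤ (k + 1 + 1).choose 2 := Nat.choose_le_choose _ (by omega)
          rw [Nat.choose_one_right] at h3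
          rw [Nat.add_comm 2 d]
          omega
        have h2' : (((2 + d).choose 2 : ℕ) : ℤ) < ((k + 1 + 1).choose 2 : ℕ) := by exact_mod_cast h2
        have h5 : (0 : ℤ) ≤ ((t.map (K4H38FP.nc 2)).sum : ℕ) := Nat.cast_nonneg _
        push_cast
        push_cast at h2' h5
        linarith
      have hk0 : (0 : ℤ) ≤ k := Nat.cast_nonneg k
      refine ⟨fun h2 => ?_, fun _ => h0, Or.inr ?_⟩
      · exfalso
        have h3 : vdimAddOne d m ≤ -1 := by linarith
        have h4 : (-2 : ℤ) ≤ (k + 1) * (k + 1 + 1) * (k + 1 - 2) := by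
          nlinarith [mul_nonneg hk0 hk0, mul_nonneg (mul_nonneg hk0 hk0) hk0]
        linarith
      · rw [h0]
        have : (0 : ℤ) ≤ (k + 1 - 1) * ((k + 1) ^ 2 - 2) := by
          rcases Nat.eq_zero_or_pos k with h3 | h3
          · rw [h3]; simp
          · have h4 : (1 : ℤ) ≤ k := by exact_mod_cast h3
            refine mul_nonneg (by linarith) ?_
            nlinarith
        push_cast
        linarith
    · refine ⟨fun h2 => ?_, fun h2 => ?_, ?_⟩
      · have h3 := S.lower (M := k + 1) (by omega) (by omega) ((k + 1) ::ₘ t) hall (by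
          rw [Nat.add_sub_cancel, ha, ← hv]
          push_cast
          nlinarith)
        rw [← hh] at h3
        rw [hv, ← h3]
        push_cast
        ring
      · by_contra hcon
        have h3 := S.upper hk htt (by omega)
        rw [← hh, ha, Nat.add_sub_cancel] at h3
        have hNM : k + 1 ≤ K4H38FP.nc 2 (k + 1) := S.le_N (k + 1)
        have h4 : ((((k + 1) ::ₘ t).map (K4H38FP.nc 2)).sum : ℤ) + h ≤
            ((2 + d).choose 2 : ℕ) + k * (K4H38FP.nc 2 (k + 1) - (k + 1)) := by
          have h5 : ((((k + 1) ::ₘ t).map (K4H38FP.nc 2)).sum : ℤ) + h ≤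
              ((2 + d).choose 2 : ℕ) + k * ((K4H38FP.nc 2 (k + 1) - (k + 1) : ℕ) : ℤ) := by
            exact_mod_cast h3
          rw [Nat.cast_sub hNM] at h5
          push_cast at h5 ⊢
          linarith
        have h6 : (1 : ℤ) ≤ h := by
          have : 1 ≤ h := by omega
          exact_mod_cast this
        rw [hv] at h2
        push_cast at h2 h4
        nlinarith
      · rcases S.middle hk htt with h3 | h3
        · left
          rw [← hh] at h3
          rw [hv, ← h3]
          push_cast
          ring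
        · right
          rw [← hh, ha] at h3
          push_cast at h3
          have hk0 : (0 : ℤ) ≤ k := Nat.cast_nonneg k
          nlinarith
  obtain ⟨m1, m2, m3⟩ := main
  refine ⟨fun h2 => hG (Q := fun x => (x : ℤ) = vdimAddOne d m) (m1 h2), fun h2 => ?_,
    hG (Q := fun x => (x : ℤ) = vdimAddOne d m ∨
      2 * (x : ℤ) ≤ (((k + 1 : ℕ) : ℤ) - 1) * ((k + 1 : ℕ) ^ 2 - 2)) m3, fun hs => ?_⟩
  · obtain ⟨U, g1, g2, g3⟩ := hG (Q := fun x => x = 0) (m2 h2)
    refine ⟨U, g1, g2, fun P hP => ?_⟩
    have g4 : Module.finrank ℂ (system P d m) = 0 := g3 P hP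
    have hfin : FiniteDimensional ℂ (system P d m) :=
      Submodule.finiteDimensional_of_le (inf_le_left :
        system P d m ≤ homogeneousSubmodule (Fin 3) ℂ d)
    exact Submodule.finrank_eq_zero.1 g4
  · by_contra hcon
    apply hs
    rcases not_and_or.1 hcon with h2 | h2
    · push Not at h2
      have h3 := m2 h2
      refine hG (Q := fun x => (x : ℤ) = max (vdimAddOne d m) 0) ?_
      rw [h3, max_eq_right]
      · simp
      · have : (0 : ℤ) ≤ ((k + 1 : ℕ) : ℤ) * ((k + 1 : ℕ) - 1) ^ 2 := by positivity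
        linarith
    · push Not at h2
      have h3 := m1 h2
      refine hG (Q := fun x => (x : ℤ) = max (vdimAddOne d m) 0) ?_
      rw [max_eq_left, h3]
      rw [← h3]
      exact Nat.cast_nonneg _

end Pool.Agent.K4H38.Old.ExplicitWindow
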